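import Pool.Agent.Helper34.CM.Defs
import Pool.Agent.Helper8.POS.Cons
import Pool.Agent.Helper8.PRE.Stay

/-!
# Project CM: the exceptional set is finite if and only if no orbit is unbounded and there are finitely many positive periodic points
-/

set_option autoImplicit false

namespace Pool.Agent.Helper5.CM

open Filter Topology Pool.Agent.Helper68.Moeller Pool.Agent.Helper52.Tao Pool.Agent.Helper8.ND
  Pool.Agent.Helper91 Pool.Agent.Helper8 Pool.Agent.Helper28 Pool.Agent.Helper28.POSB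

variable {d m : ℕ} {r : ℤ → ℤ}

/-- a crossing -/
theorem crossing {f : ℕ → ℤ} {B : ℤ} {k : ℕ} (hk : f k ≤ B) (n : ℕ) (hn : B < f (k + n)) : ∃ j, k ≤ j ∧ f j ≤ B ∧ B < f (j + 1) := by
  induction n with
  | zero =>
    rw [add_zero] at hn
    exact absurd hk (not_le.2 hn)
  | succ n ih =>
    by_cases h : B < f (k + n)
    · exact ih h
    · exact ⟨k + n, by omega, not_lt.1 h, hn⟩

/-- nonpositive points are not mapped high -/
theorem T_le {B : ℤ} (hd : 1 ≤ d) (hB : 0 ≤ B) (hr : ∀ j : ℤ, 0 < j → j < (d : ℤ) → |r j| ≤ B) {y : ℤ} (hy : y ≤ 0) : T d m r y ≤ B := by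
  have hd0 : (0 : ℤ) < d := by exact_mod_cast hd
  have hd1 : (1 : ℤ) ≤ d := by exact_mod_cast hd
  have h1 : B ≤ B * d := by nlinarith
  unfold T
  split_ifs with h
  · exact Int.ediv_le_of_le_mul hd0 (by linarith)
  · refine Int.ediv_le_of_le_mul hd0 ?_
    have h4 : 0 < y % (d : ℤ) := by
      have h5 := Int.emod_nonneg y hd0.ne'
      have h6 : y % (d : ℤ) ≠ 0 := fun h7 => h (Int.dvd_of_emod_eq_zero h7)
      omega
    have h2 := (abs_le.1 (hr _ h4 (Int.emod_lt_of_pos y hd0))).1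
    have h3 : (m : ℤ) * y ≤ 0 := mul_nonpos_of_nonneg_of_nonpos (Int.natCast_nonneg m) hy
    linarith

/-- a crossing starts at a positive point -/
theorem cross_pos {B : ℤ} (hd : 1 ≤ d) (hB : 0 ≤ B) (hr : ∀ j : ℤ, 0 < j → j < (d : ℤ) → |r j| ≤ B) {y : ℤ} (hy : B < T d m r y) : 1 ≤ y := by
  by_contra h
  exact absurd (T_le (m := m) hd hB hr (by omega : y ≤ 0)) (not_le.2 hy)

/-- an orbit with a repetition is finite -/
theorem finite_orbit {f : ℤ → ℤ} {n : ℤ} {k l : ℕ} (hkl : k < l) (h : f^[k] n = f^[l] n) : (Set.range fun i : ℕ => f^[i] n).Finite := by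
  have key : ∀ i : ℕ, ∃ j < l, f^[i] n = f^[j] n := by
    intro i
    induction i using Nat.strong_induction_on with
    | _ i ih =>
      by_cases hi : i < l
      · exact ⟨i, hi, rfl⟩
      · obtain ⟨s, rfl⟩ : ∃ s, i = s + l := ⟨i - l, by omega⟩
        obtain ⟨j, hj, h2⟩ := ih (s + k) (by omega)
        refine ⟨j, hj, ?_⟩
        rw [Function.iterate_add_apply, ← h, ← Function.iterate_add_apply, h2]
  refine ((Finset.finite_toSet ((Finset.range l).image fun j => f^[j] n))).subset ?_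
  rintro _ ⟨i, rfl⟩
  obtain ⟨j, hj, h2⟩ := key i
  rw [Finset.mem_coe, Finset.mem_image]
  exact ⟨j, Finset.mem_range.2 hj, h2.symm⟩

/-- a periodic point is on the orbit of each point of its orbit -/
theorem back {f : ℤ → ℤ} {a : ℤ} {t : ℕ} (ht : 1 ≤ t) (h : f^[t] a = a) (k : ℕ) : ∃ j : ℕ, f^[j] (f^[k] a) = a := by
  have h1 : ∀ n : ℕ, f^[n * t] a = a := by
    intro n
    induction n with
    | zero => simp
    | succ n ih => rw [Nat.succ_mul, Function.iterate_add_apply, h, ih]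
  refine ⟨k * t - k, ?_⟩
  rw [← Function.iterate_add_apply, Nat.sub_add_cancel (Nat.le_mul_of_pos_right k (by omega))]
  exact h1 k

theorem E_finite_iff (h : POSB.Std d m r) :
    (E d m r).Finite ↔ ((¬ ∃ n : ℤ, 1 ≤ n ∧ ∀ B : ℤ, ∃ t : ℕ, B < (T d m r)^[t] n) ∧
      {a : ℤ | 1 ≤ a ∧ ∃ t : ℕ, 1 ≤ t ∧ (T d m r)^[t] a = a}.Finite) := by
  have hd1 : 1 ≤ d := le_trans (by norm_num) h.hd
  constructor
  · intro hfin
    obtain ⟨B₀, hB₀⟩ := PRE.stay_empty h.hd h.hr hfin
    obtain ⟨B₁, hB₁, hrB⟩ := PRE.exists_resid_bound d r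
    obtain ⟨B, hBdef⟩ : ∃ B : ℤ, B = max B₁ ⌈B₀⌉ := ⟨_, rfl⟩
    have hB1 : B₁ ≤ B := by rw [hBdef]; exact le_max_left _ _
    have hB2 : B₀ ≤ B := (Int.le_ceil B₀).trans (by rw [hBdef]; exact_mod_cast le_max_right _ _)
    have hB : 0 ≤ B := hB₁.trans hB1
    have hrB' : ∀ j : ℤ, 0 < j → j < (d : ℤ) → |r j| ≤ B := fun j h1 h2 => (hrB j h1 h2).trans hB1
    -- every orbit comes back below `B`
    have hlow : ∀ (n : ℤ) (K : ℕ), ∃ k, K ≤ k ∧ (T d m r)^[k] n ≤ B := by
      intro n K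
      have h1 := hB₀ n
      push Not at h1
      obtain ⟨k, hk, h2⟩ := h1 K
      refine ⟨k, hk, ?_⟩
      exact_mod_cast h2.trans hB2
    have hcross : ∀ (n : ℤ) (k : ℕ), (T d m r)^[k] n ≤ B → ∀ l : ℕ, B < (T d m r)^[k + l] n →
        ∃ j, k ≤ j ∧ 1 ≤ (T d m r)^[j] n ∧ (T d m r)^[j] n ≤ B := by
      intro n k hk l hl
      obtain ⟨j, hj1, hj2, hj3⟩ := crossing (f := fun i => (T d m r)^[i] n) hk l hl
      refine ⟨j, hj1, ?_, hj2⟩
      rw [Function.iterate_succ_apply'] at hj3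
      exact cross_pos hd1 hB hrB' hj3
    refine ⟨?_, ?_⟩
    · rintro ⟨n, hn, hunb⟩
      -- the orbit is in `[1, B]` infinitely often
      have hinf : ∀ K : ℕ, ∃ j, K ≤ j ∧ 1 ≤ (T d m r)^[j] n ∧ (T d m r)^[j] n ≤ B := by
        intro K
        obtain ⟨k, hk, h2⟩ := hlow n K
        obtain ⟨M, hM⟩ : ∃ M : ℤ, ∀ i ≤ k, (T d m r)^[i] n ≤ M := by
          obtain ⟨M, hM⟩ := ((Finset.range (k + 1)).image fun i => (T d m r)^[i] n).bddAbove
          refine ⟨M, fun i hi => hM ?_⟩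
          rw [Finset.mem_coe, Finset.mem_image]
          exact ⟨i, Finset.mem_range.2 (by omega), rfl⟩
        obtain ⟨t, ht⟩ := hunb (max M B)
        have htk : k < t := by
          by_contra hc
          have h3 := hM t (by omega)
          have h4 := le_max_left M B
          omega
        obtain ⟨l, rfl⟩ : ∃ l, t = k + l := ⟨t - k, by omega⟩
        obtain ⟨j, hj1, hj2, hj3⟩ := hcross n k h2 l (lt_of_le_of_lt (le_max_right _ _) ht)
        exact ⟨j, by omega, hj2, hj3⟩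
      choose g hg1 hg2 hg3 using hinf
      -- times
      obtain ⟨τ, hτ⟩ : ∃ τ : ℕ → ℕ, ∀ i, τ i = (fun s => g (s + 1))^[i] 0 := ⟨_, fun _ => rfl⟩
      have hτmono : StrictMono τ := by
        refine strictMono_nat_of_lt_succ fun i => ?_
        rw [hτ, hτ, Function.iterate_succ_apply']
        exact hg1 _
      obtain ⟨i, -, j, -, hij, h5⟩ := Set.Infinite.exists_ne_map_eq_of_mapsTo (s := Set.Ici (1 : ℕ)) (t := Set.Icc (1 : ℤ) B)
        (f := fun i => (T d m r)^[τ i] n) (Set.Ici_infinite 1) (fun i hi => by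
          obtain ⟨i', rfl⟩ : ∃ i', i = i' + 1 := ⟨i - 1, by have := Set.mem_Ici.1 hi; omega⟩
          simp only [hτ, Function.iterate_succ_apply']
          exact ⟨hg2 _, hg3 _⟩) (Set.finite_Icc _ _)
      have hfin2 : (Set.range fun i : ℕ => (T d m r)^[i] n).Finite := by
        rcases lt_or_gt_of_ne hij with h6 | h6
        · exact finite_orbit (hτmono h6) h5
        · exact finite_orbit (hτmono h6) h5.symm
      obtain ⟨M, hM⟩ := hfin2.bddAbove
      obtain ⟨t, ht⟩ := hunb M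
      exact absurd (hM ⟨t, rfl⟩) (not_le.2 ht)
    · have hper : ∀ a : ℤ, 1 ≤ a → ∀ t : ℕ, 1 ≤ t → (T d m r)^[t] a = a →
          ∃ y ∈ Set.Icc (1 : ℤ) B ∩ {y | ∃ s : ℕ, 1 ≤ s ∧ (T d m r)^[s] y = y}, a ∈ Set.range fun i : ℕ => (T d m r)^[i] y := by
        intro a ha t ht hta
        obtain ⟨j, hj1, hj2⟩ : ∃ j : ℕ, 1 ≤ (T d m r)^[j] a ∧ (T d m r)^[j] a ≤ B := by
          by_cases haB : a ≤ B
          · exact ⟨0, ha, haB⟩
          · obtain ⟨k, -, hk⟩ := hlow a 0
            obtain ⟨s, hs⟩ := back ht hta k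
            rw [← Function.iterate_add_apply, add_comm] at hs
            obtain ⟨j, -, hj2, hj3⟩ := hcross a k hk s (by rw [hs]; omega)
            exact ⟨j, hj2, hj3⟩
        refine ⟨(T d m r)^[j] a, ⟨⟨hj1, hj2⟩, t, ht, ?_⟩, ?_⟩
        · rw [← Function.iterate_add_apply, add_comm, Function.iterate_add_apply, hta]
        · obtain ⟨s, hs⟩ := back ht hta j
          exact ⟨s, hs⟩
      refine (Set.Finite.biUnion ((Set.finite_Icc (1 : ℤ) B).inter_of_left {y | ∃ s : ℕ, 1 ≤ s ∧ (T d m r)^[s] y = y})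
        (t := fun y => Set.range fun i : ℕ => (T d m r)^[i] y) ?_).subset ?_
      · rintro y ⟨-, s, hs, hy⟩
        exact finite_orbit (k := 0) (l := s) (by omega) (by rw [Function.iterate_zero, id_eq, hy])
      · rintro a ⟨ha, t, ht, hta⟩
        obtain ⟨y, hy, hay⟩ := hper a ha t ht hta
        exact Set.mem_biUnion hy hay
  · rintro ⟨hbd, hfin⟩
    by_contra hE
    obtain ⟨M, hM⟩ := hfin.bddAbove
    obtain ⟨c, hc, X, hX⟩ := POS.stay_large h.hd h.hdm h.hco h.hw h.hr hE ((max M 0 : ℤ) : ℝ)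
    have h1 := hX (max X 1) (le_max_left _ _)
    have h2 : 0 < c * max X 1 := mul_pos hc (lt_of_lt_of_le one_pos (le_max_right _ _))
    have h3 : ({n : ℤ | n ∈ {n : ℤ | ∀ k : ℕ, ((max M 0 : ℤ) : ℝ) < ((T d m r)^[k] n : ℝ)} ∧ 0 < n ∧ (n : ℝ) ≤ max X 1}).Nonempty := by
      by_contra hc
      rw [Set.not_nonempty_iff_eq_empty] at hc
      rw [hc, Set.ncard_empty, Nat.cast_zero] at h1
      linarith
    obtain ⟨n, hn, hn0, -⟩ := h3
    have hn' : ∀ k : ℕ, max M 0 < (T d m r)^[k] n := fun k => by exact_mod_cast hn k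
    have h4 : ∃ B : ℤ, ∀ t : ℕ, (T d m r)^[t] n ≤ B := by
      by_contra hcon
      push Not at hcon
      exact hbd ⟨n, by omega, hcon⟩
    obtain ⟨B, hB⟩ := h4
    obtain ⟨i, -, j, -, hij, h5⟩ := Set.Infinite.exists_ne_map_eq_of_mapsTo (s := (Set.univ : Set ℕ)) (t := Set.Icc (0 : ℤ) B)
      (f := fun i => (T d m r)^[i] n) Set.infinite_univ (fun i _ => ⟨by
        have := hn' i
        have := le_max_right M 0
        show 0 ≤ (T d m r)^[i] n
        omega, hB i⟩) (Set.finite_Icc _ _)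
    have key : ∀ i j : ℕ, i < j → (T d m r)^[i] n = (T d m r)^[j] n → False := by
      intro i j hij h6
      have h7 : (T d m r)^[i] n ∈ {a : ℤ | 1 ≤ a ∧ ∃ t : ℕ, 1 ≤ t ∧ (T d m r)^[t] a = a} := by
        refine ⟨?_, j - i, by omega, ?_⟩
        · have := hn' i
          have := le_max_right M 0
          omega
        · rw [← Function.iterate_add_apply, Nat.sub_add_cancel hij.le, ← h6]
      have h8 := hM h7
      have h9 := hn' i
      have h10 := le_max_left M 0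
      omega
    rcases lt_or_gt_of_ne hij with h6 | h6
    · exact key i j h6 h5
    · exact key j i h6 h5.symm

/-- the same with bounded orbits -/
theorem E_finite_iff_bdd (h : POSB.Std d m r) :
    (E d m r).Finite ↔ ((∀ n : ℤ, 0 < n → ∃ B : ℤ, ∀ k : ℕ, (T d m r)^[k] n ≤ B) ∧
      {a : ℤ | 1 ≤ a ∧ ∃ t : ℕ, 1 ≤ t ∧ (T d m r)^[t] a = a}.Finite) := by
  rw [E_finite_iff h]
  refine and_congr_left fun _ => ?_
  constructor
  · intro h1 n hn
    by_contra h2
    push Not at h2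
    exact h1 ⟨n, hn, h2⟩
  · rintro h1 ⟨n, hn, h2⟩
    obtain ⟨B, hB⟩ := h1 n hn
    obtain ⟨t, ht⟩ := h2 B
    exact absurd (hB t) (not_le.2 ht)

end Pool.Agent.Helper5.CM
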