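import Pool.Agent.Helper5.CM.Cyc

/-!
# Project CM: the law of the least element of an orbit
-/

set_option autoImplicit false

namespace Pool.Agent.Helper5.CM

open Filter Topology Pool.Agent.Helper68.Moeller Pool.Agent.Helper52.Tao Pool.Agent.Helper8.ND
  Pool.Agent.Helper91 Pool.Agent.Helper8 Pool.Agent.Helper28 Pool.Agent.Helper28.POSB

/-- the integers whose orbit has the least element `e` -/
def Lm (d m : ℕ) (r : ℤ → ℤ) (e : ℤ) : Set ℤ := {n | (∃ t : ℕ, (T d m r)^[t] n = e) ∧ ∀ t : ℕ, e ≤ (T d m r)^[t] n}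

/-- the integers whose orbit contains an integer `≤ 0` -/
def N0 (d m : ℕ) (r : ℤ → ℤ) : Set ℤ := {n | ∃ t : ℕ, (T d m r)^[t] n ≤ 0}

/-- the integers whose orbit stays `> z` -/
def Stay (d m : ℕ) (r : ℤ → ℤ) (z : ℤ) : Set ℤ := {n | ∀ t : ℕ, z < (T d m r)^[t] n}

variable {d m : ℕ} {r : ℤ → ℤ}

theorem tinv_Lm (e : ℤ) : TInv d m r (Lm d m r e) e := by
  intro n hn
  have hn' : e < n := by exact_mod_cast hn
  constructor
  · rintro ⟨⟨t, ht⟩, h⟩
    refine ⟨?_, fun t => by
      have := h (t + 1)
      rwa [Function.iterate_succ_apply] at this⟩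
    cases t with
    | zero =>
      rw [Function.iterate_zero, id_eq] at ht
      omega
    | succ t => exact ⟨t, by rwa [Function.iterate_succ_apply] at ht⟩
  · rintro ⟨⟨t, ht⟩, h⟩
    refine ⟨⟨t + 1, by rwa [Function.iterate_succ_apply]⟩, fun t => ?_⟩
    cases t with
    | zero =>
      rw [Function.iterate_zero, id_eq]
      exact hn'.le
    | succ t =>
      rw [Function.iterate_succ_apply]
      exact h t

theorem tinv_N0 : TInv d m r (N0 d m r) 0 := by
  intro n hn
  have hn' : 0 < n := by exact_mod_cast hn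
  constructor
  · rintro ⟨t, ht⟩
    cases t with
    | zero =>
      rw [Function.iterate_zero, id_eq] at ht
      omega
    | succ t => exact ⟨t, by rwa [Function.iterate_succ_apply] at ht⟩
  · rintro ⟨t, ht⟩
    exact ⟨t + 1, by rwa [Function.iterate_succ_apply]⟩

theorem tinv_Stay (z : ℤ) : TInv d m r (Stay d m r z) z := by
  intro n hn
  have hn' : z < n := by exact_mod_cast hn
  constructor
  · intro h t
    have := h (t + 1)
    rwa [Function.iterate_succ_apply] at this
  · intro h t
    cases t with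
    | zero =>
      rw [Function.iterate_zero, id_eq]
      exact hn'
    | succ t =>
      rw [Function.iterate_succ_apply]
      exact h t

theorem tinv_mono {G : Set ℤ} {z z' : ℝ} (hz : z ≤ z') (hG : TInv d m r G z) : TInv d m r G z' :=
  fun n hn => hG n (lt_of_le_of_lt hz hn)

theorem stay_split (z : ℤ) : Stay d m r z = Lm d m r (z + 1) ∪ Stay d m r (z + 1) := by
  ext n
  constructor
  · intro h
    by_cases h1 : ∃ t : ℕ, (T d m r)^[t] n = z + 1
    · exact Or.inl ⟨h1, fun t => by
        have := h t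
        omega⟩
    · push Not at h1
      refine Or.inr fun t => ?_
      have h2 := h t
      have h3 := h1 t
      show z + 1 < _
      omega
  · rintro (⟨-, h⟩ | h)
    · intro t
      have := h t
      show z < _
      omega
    · intro t
      have : z + 1 < _ := h t
      show z < _
      omega

theorem stay_disj (z : ℤ) : Disjoint (Lm d m r (z + 1)) (Stay d m r (z + 1)) := by
  rw [Set.disjoint_left]
  rintro n ⟨⟨t, ht⟩, -⟩ h
  have : z + 1 < _ := h t
  rw [ht] at this
  exact lt_irrefl _ this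

theorem dens_stay_step (h : Std d m r) (z : ℤ) : PL.dens (Stay d m r z) = PL.dens (Lm d m r (z + 1)) + PL.dens (Stay d m r (z + 1)) := by
  rw [stay_split]
  exact dens_union h (z := ((z + 1 : ℤ) : ℝ)) (tinv_Lm _) (tinv_Stay _) (stay_disj z)

theorem dens_stay_tendsto (h : Std d m r) : Tendsto (fun z : ℕ => PL.dens (Stay d m r (z : ℤ))) atTop (𝓝 0) := by
  obtain ⟨C, δ, hC, hδ, hst⟩ := exists_stay h
  have h1 : Tendsto (fun z : ℕ => C * (z : ℝ) ^ (-δ)) atTop (𝓝 0) := by
    have h2 := ((tendsto_rpow_neg_atTop hδ).comp (tendsto_natCast_atTop_atTop (R := ℝ))).const_mul C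
    rw [mul_zero] at h2
    exact h2
  refine squeeze_zero' (Eventually.of_forall fun z => dens_nonneg h (tinv_Stay _)) ?_ h1
  filter_upwards [eventually_ge_atTop 1] with z hz
  have hz1 : (1 : ℝ) ≤ z := by exact_mod_cast hz
  refine dens_le_of (tendsto_dens h (tinv_Stay _)) (b := C * (z : ℝ) ^ (-δ)) (X := 1) fun x hx => ?_
  have e : Stay d m r (z : ℤ) = {n : ℤ | ∀ k : ℕ, (z : ℝ) < ((T d m r)^[k] n : ℝ)} := by
    ext n
    constructor
    · intro h t
      have h2 : (z : ℤ) < _ := h t
      show (z : ℝ) < _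
      exact_mod_cast h2
    · intro h t
      have h2 : (z : ℝ) < _ := h t
      show (z : ℤ) < _
      exact_mod_cast h2
  rw [e]
  refine (hst x z hx hz1).trans (le_of_eq ?_)
  ring

/-- **the tail of the law** -/
theorem law_tail (h : Std d m r) (z : ℕ) : HasSum (fun e : ℕ => PL.dens (Lm d m r (z + e + 1))) (PL.dens (Stay d m r z)) := by
  rw [hasSum_iff_tendsto_nat_of_nonneg (fun e => dens_nonneg h (tinv_Lm _))]
  have h1 : ∀ n : ℕ, ∑ e ∈ Finset.range n, PL.dens (Lm d m r (z + e + 1)) =
      PL.dens (Stay d m r z) - PL.dens (Stay d m r ((z + n : ℕ) : ℤ)) := by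
    intro n
    induction n with
    | zero => simp
    | succ n ih =>
      rw [Finset.sum_range_succ, ih]
      have h2 := dens_stay_step h ((z + n : ℕ) : ℤ)
      have e1 : ((z + n : ℕ) : ℤ) + 1 = (z : ℤ) + n + 1 := by push_cast; ring
      have e2 : ((z + (n + 1) : ℕ) : ℤ) = (z : ℤ) + n + 1 := by push_cast; ring
      rw [e1] at h2
      rw [e2]
      linarith
  simp only [h1]
  have h3 : Tendsto (fun n : ℕ => PL.dens (Stay d m r ((z + n : ℕ) : ℤ))) atTop (𝓝 0) := by
    have h4 := (tendsto_add_atTop_iff_nat z).2 (dens_stay_tendsto h)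
    refine h4.congr fun n => ?_
    rw [add_comm]
  have h5 := h3.const_sub (PL.dens (Stay d m r z))
  rw [sub_zero] at h5
  exact h5

/-- **the law of the least element** -/
theorem law_sum (h : Std d m r) : HasSum (fun e : ℕ => PL.dens (Lm d m r (e + 1))) (1 - PL.dens (N0 d m r)) := by
  have h1 := law_tail h 0
  have h2 : PL.dens (Stay d m r ((0 : ℕ) : ℤ)) = 1 - PL.dens (N0 d m r) := by
    have h3 : PL.dens (N0 d m r ∪ Stay d m r ((0 : ℕ) : ℤ)) = 1 := by
      have hT : TInv d m r (N0 d m r ∪ Stay d m r ((0 : ℕ) : ℤ)) 0 := TInv.union tinv_N0 (by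
        have := tinv_Stay (d := d) (m := m) (r := r) ((0 : ℕ) : ℤ)
        simpa using this)
      refine tendsto_nhds_unique (tendsto_dens h hT) (cN_univ_tendsto fun n hn => ?_)
      by_cases h4 : ∃ t : ℕ, (T d m r)^[t] n ≤ 0
      · exact Or.inl h4
      · push Not at h4
        exact Or.inr fun t => by
          show ((0 : ℕ) : ℤ) < _
          exact_mod_cast h4 t
    rw [dens_union h (z := 0) tinv_N0 (by
        have := tinv_Stay (d := d) (m := m) (r := r) ((0 : ℕ) : ℤ)
        simpa using this) (by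
      rw [Set.disjoint_left]
      rintro n ⟨t, ht⟩ h5
      have h6 : ((0 : ℕ) : ℤ) < _ := h5 t
      push_cast at h6
      exact absurd ht (not_le.2 h6))] at h3
    linarith
  rw [h2] at h1
  refine h1.congr_fun ?_
  intro e
  simp

/-- the exceptional set -/
theorem E_finite_iff_law (h : Std d m r) : (E d m r).Finite ↔ ∃ B : ℤ, ∀ e : ℤ, B < e → PL.dens (Lm d m r e) = 0 := by
  constructor
  · intro hfin
    obtain ⟨B₀, hB₀⟩ := PRE.stay_empty h.hd h.hr hfin
    refine ⟨⌈B₀⌉, fun e he => ?_⟩
    have h1 : Lm d m r e = ∅ := by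
      ext n
      constructor
      · rintro ⟨-, hn⟩
        refine (hB₀ n ⟨0, fun k _ => ?_⟩).elim
        have h2 : B₀ < (e : ℝ) := lt_of_le_of_lt (Int.le_ceil B₀) (by exact_mod_cast he)
        have h3 : (e : ℝ) ≤ ((T d m r)^[k] n : ℝ) := by exact_mod_cast hn k
        linarith
      · exact fun h => h.elim
    rw [h1, dens_empty h]
  · rintro ⟨B, hB⟩
    by_contra hE
    obtain ⟨z, hz⟩ : ∃ z : ℕ, (z : ℤ) = max B 0 := ⟨(max B 0).toNat, Int.toNat_of_nonneg (le_max_right _ _)⟩
    have hBz : B ≤ z := by rw [hz]; exact le_max_left _ _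
    have h1 : PL.dens (Stay d m r z) = 0 := by
      have h2 := law_tail h z
      have h3 : (fun e : ℕ => PL.dens (Lm d m r ((z : ℤ) + e + 1))) = fun _ => 0 := by
        funext e
        exact hB _ (by omega)
      rw [h3] at h2
      exact h2.unique hasSum_zero
    obtain ⟨c, hc, X, hX⟩ := POS.stay_large h.hd h.hdm h.hco h.hw h.hr hE (z : ℝ)
    have h4 : c ≤ PL.dens (Stay d m r z) := by
      refine le_dens_of (tendsto_dens h (tinv_Stay _)) (X := X) fun x hx => ?_
      refine (hX x hx).trans (le_of_eq ?_)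
      unfold cN
      congr 2
      ext n
      have e : n ∈ Stay d m r (z : ℤ) ↔ n ∈ {n : ℤ | ∀ k : ℕ, (z : ℝ) < ((T d m r)^[k] n : ℝ)} := by
        constructor
        · intro h t
          have h2 : (z : ℤ) < _ := h t
          show (z : ℝ) < _
          exact_mod_cast h2
        · intro h t
          have h2 : (z : ℝ) < _ := h t
          show (z : ℤ) < _
          exact_mod_cast h2
      simp only [Set.mem_ofPred_eq] at e ⊢
      rw [e]
    linarith

end Pool.Agent.Helper5.CM
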