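import Pool.Agent.Helper34.CM.Defs

/-!
# Project CM, block 3a: the sets of the integers with a path to `a` above `z`
-/

set_option autoImplicit false

namespace Pool.Agent.Helper5.CM

open Filter Topology Pool.Agent.Helper68.Moeller Pool.Agent.Helper52.Tao Pool.Agent.Helper8.ND
  Pool.Agent.Helper91 Pool.Agent.Helper8 Pool.Agent.Helper28 Pool.Agent.Helper28.POSB Pool.Agent.Helper34.CM

variable {d m : ℕ} {r : ℤ → ℤ}

theorem tinv_PathS (z : ℝ) (a : ℤ) : TInv d m r (PathS d m r z a) (max z a) := by
  intro n hn
  have hnz : z < n := lt_of_le_of_lt (le_max_left _ _) hn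
  have hna : (a : ℝ) < n := lt_of_le_of_lt (le_max_right _ _) hn
  constructor
  · rintro ⟨t, ht, hz⟩
    cases t with
    | zero =>
      rw [Function.iterate_zero, id_eq] at ht
      rw [ht] at hna
      exact absurd hna (lt_irrefl _)
    | succ t =>
      refine ⟨t, by rwa [Function.iterate_succ_apply] at ht, fun j hj => ?_⟩
      have h2 := hz (j + 1) (by omega)
      rwa [Function.iterate_succ_apply] at h2
  · rintro ⟨t, ht, hz⟩
    refine ⟨t + 1, by rwa [Function.iterate_succ_apply], fun j hj => ?_⟩
    cases j with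
    | zero =>
      rw [Function.iterate_zero, id_eq]
      exact hnz
    | succ j =>
      rw [Function.iterate_succ_apply]
      exact hz j (by omega)

theorem tinv_PathY (z Y : ℝ) (hzY : z ≤ Y) (a : ℤ) : TInv d m r (PathY d m r z Y a) Y := by
  intro n hn
  constructor
  · rintro ⟨t, ht, hz, i, hi, hY⟩
    cases t with
    | zero =>
      have h0 : i = 0 := by omega
      subst h0
      rw [Function.iterate_zero, id_eq] at hY
      linarith
    | succ t =>
      refine ⟨t, by rwa [Function.iterate_succ_apply] at ht, fun j hj => ?_, ?_⟩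
      · have h2 := hz (j + 1) (by omega)
        rwa [Function.iterate_succ_apply] at h2
      · cases i with
        | zero =>
          rw [Function.iterate_zero, id_eq] at hY
          linarith
        | succ i => exact ⟨i, by omega, by rwa [Function.iterate_succ_apply] at hY⟩
  · rintro ⟨t, ht, hz, i, hi, hY⟩
    refine ⟨t + 1, by rwa [Function.iterate_succ_apply], fun j hj => ?_, i + 1, by omega, by rwa [Function.iterate_succ_apply]⟩
    cases j with
    | zero =>
      rw [Function.iterate_zero, id_eq]
      exact lt_of_le_of_lt hzY hn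
    | succ j =>
      rw [Function.iterate_succ_apply]
      exact hz j (by omega)

theorem PathS_sub (z Y : ℝ) (a : ℤ) : PathS d m r z a ⊆ PathY d m r z Y a ∪ PathS d m r Y a := by
  rintro n ⟨t, ht, hz⟩
  by_cases h : ∃ i ≤ t, ((T d m r)^[i] n : ℝ) ≤ Y
  · exact Or.inl ⟨t, ht, hz, h⟩
  · push Not at h
    exact Or.inr ⟨t, ht, h⟩

theorem PathS_empty {z : ℝ} {a : ℤ} (h : (a : ℝ) ≤ z) : PathS d m r z a = ∅ := by
  ext n
  constructor
  · rintro ⟨t, ht, hz⟩
    have h2 := hz t le_rfl
    rw [ht] at h2
    exact absurd h (not_le.2 h2)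
  · exact fun h => h.elim

end Pool.Agent.Helper5.CM
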