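import Pool.Agent.Helper5.CM.PathA
import Pool.Agent.Helper5.PD.Small

/-!
# Project CM, block 3b: the density of the integers with a path to `a` above `z`, from the blocks 1 and 2
-/

set_option autoImplicit false

namespace Pool.Agent.Helper5.CM

open Filter Topology Pool.Agent.Helper68.Moeller Pool.Agent.Helper52.Tao Pool.Agent.Helper8.ND
  Pool.Agent.Helper91 Pool.Agent.Helper8 Pool.Agent.Helper28 Pool.Agent.Helper28.POSB Pool.Agent.Helper34.CM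
open Pool.Agent.Helper5.PD (grow tail_of Sz Pz)

variable {d m : ℕ} {r : ℤ → ℤ}

/-- short paths, in counts -/
theorem small_dens (h : Std d m r) {κ η θ C : ℝ} (hθ : 0 < θ) (hκ : κ = 1 - η - 4 * θ) (hκ0 : 0 < κ) (hC : 0 < C)
    (pc : ∀ (a : ℤ) (x z : ℝ), 2 ≤ x → 1 ≤ z → cN (PathS d m r z a) x ≤ C * Real.log x ^ 4 * x * z ^ (η - 1))
    (dl : ∀ n : ℕ, 1 ≤ n → ∃ C U₀ : ℝ, 0 < C ∧ 1 ≤ U₀ ∧ ∀ Y : ℝ, 1 ≤ Y → ∀ G : Set ℤ, TInv d m r G Y →
      ∀ u₀ G₀ : ℝ, U₀ ≤ u₀ → C * Y ^ 2 ≤ Real.exp (u₀ / 2) → 0 ≤ G₀ → (∀ u, u₀ / 2 ≤ u → u ≤ u₀ → fd G (Real.exp u) ≤ G₀) →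
        PL.dens G ≤ G₀ + C * (u₀ ^ n)⁻¹) :
    ∃ C' : ℝ, 0 < C' ∧ ∀ (a : ℤ) (z ε : ℝ), 1 ≤ a → 1 ≤ z → 0 < ε → ∀ᶠ x : ℝ in atTop,
      cN (Sz d m r a z (Real.exp (z ^ θ))) x ≤ (C' * z ^ (-κ) + ε) * x := by
  obtain ⟨n₀, hn₀⟩ : ∃ n : ℕ, κ / θ ≤ n := exists_nat_ge _
  obtain ⟨n, hn1, hn⟩ : ∃ n : ℕ, 1 ≤ n ∧ κ ≤ n * θ := by
    refine ⟨n₀ + 1, by omega, ?_⟩
    rw [div_le_iff₀ hθ] at hn₀
    push_cast
    linarith
  obtain ⟨C₂, U₀, hC₂, hU₀, hrec⟩ := dl n hn1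
  obtain ⟨Z₁, hZ₁1, hZ₁⟩ := grow hθ hκ0
  have ht : Tendsto (fun z : ℝ => z ^ θ) atTop atTop := tendsto_rpow_atTop hθ
  obtain ⟨Z₂, hZ₂⟩ := (ht.eventually_ge_atTop (max U₀ C₂)).exists_forall_of_atTop
  set Z := max Z₁ Z₂ with hZdef
  have hZ1 : 1 ≤ Z := hZ₁1.trans (le_max_left _ _)
  have key : ∀ (a : ℤ) (z ε : ℝ), Z ≤ z → 0 < ε → ∀ᶠ x : ℝ in atTop,
      cN (PathY d m r z (Real.exp (z ^ θ)) a) x ≤ ((2 * C * 9 ^ 4 + C₂) * z ^ (-κ) + ε) * x := by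
    intro a z ε hz hε
    have hz1 : 1 ≤ z := hZ1.trans hz
    have hz0 : 0 < z := by linarith
    have hw1 : 1 ≤ z ^ θ := Real.one_le_rpow hz1 hθ.le
    have hw := hZ₂ z ((le_max_right _ _).trans hz)
    have hwU : U₀ ≤ z ^ θ := (le_max_left _ _).trans hw
    have hwK : C₂ ≤ z ^ θ := (le_max_right _ _).trans hw
    have hY := hZ₁ z ((le_max_left _ _).trans hz)
    have hzY : z ≤ Real.exp (z ^ θ) := by
      refine le_trans ?_ hY
      refine le_mul_of_one_le_left hz0.le (le_trans ?_ (le_max_left _ _))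
      norm_num
    set w := z ^ θ with hwdef
    have hYone : 1 ≤ Real.exp w := Real.one_le_exp (by linarith)
    have hzκ : 0 < z ^ (-κ) := Real.rpow_pos_of_pos hz0 _
    have htinv : TInv d m r (PathY d m r z (Real.exp w) a) (Real.exp w) := tinv_PathY z _ hzY a
    have h1 := hrec (Real.exp w) hYone _ htinv (8 * w) (2 * C * 9 ^ 4 * z ^ (-κ)) (by linarith) (by
      have h2 : C₂ ≤ Real.exp w := hwK.trans (by linarith [Real.add_one_le_exp w])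
      have h3 : Real.exp (8 * w / 2) = Real.exp w * Real.exp w * Real.exp w ^ 2 := by
        rw [sq, ← Real.exp_add, ← Real.exp_add]
        congr 1
        ring
      rw [h3]
      have h4 : C₂ ≤ Real.exp w * Real.exp w := by nlinarith
      exact mul_le_mul_of_nonneg_right h4 (by positivity)) (by positivity) (by
      intro v hv1 hv2
      have hv0 : 0 ≤ v := by linarith
      have hev : 1 ≤ Real.exp v := Real.one_le_exp hv0
      refine (Pool.Agent.Helper5.PD.fd_le_card (Real.exp_pos v)).trans ?_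
      rw [div_le_iff₀ (Real.exp_pos v)]
      have h5 : ({n : ℤ | 0 < n ∧ (n : ℝ) ≤ 2 * Real.exp v ∧ n ∈ PathY d m r z (Real.exp w) a}.ncard : ℝ) ≤
          cN (PathS d m r z a) (2 * Real.exp v) := by
        have h6 : {n : ℤ | 0 < n ∧ (n : ℝ) ≤ 2 * Real.exp v ∧ n ∈ PathY d m r z (Real.exp w) a} ⊆
            {n : ℤ | n ∈ PathS d m r z a ∧ 0 < n ∧ (n : ℝ) ≤ 2 * Real.exp v} := by
          rintro n ⟨a1, a2, t, ht, htz, -⟩
          exact ⟨⟨t, ht, htz⟩, a1, a2⟩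
        unfold cN
        exact_mod_cast Set.ncard_le_ncard h6 (finite_cN (PathS d m r z a) (2 * Real.exp v))
      have h8 := pc a (2 * Real.exp v) z (by linarith) hz1
      have h9 : Real.log (2 * Real.exp v) = Real.log 2 + v := by
        rw [Real.log_mul two_ne_zero (Real.exp_pos v).ne', Real.log_exp]
      have h10 : 0 ≤ Real.log (2 * Real.exp v) ∧ Real.log (2 * Real.exp v) ≤ 9 * w := by
        have h11 := Real.log_two_lt_d9
        have h12 := Real.log_two_gt_d9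
        rw [h9]
        constructor <;> linarith
      have h13 : Real.log (2 * Real.exp v) ^ 4 ≤ (9 * w) ^ 4 := pow_le_pow_left₀ h10.1 h10.2 4
      have h14 : 0 < z ^ (η - 1) := Real.rpow_pos_of_pos hz0 _
      have h15 : w ^ 4 * z ^ (η - 1) = z ^ (-κ) := by
        rw [hwdef, ← Real.rpow_natCast (z ^ θ) 4, ← Real.rpow_mul hz0.le, ← Real.rpow_add hz0]
        congr 1
        rw [hκ]
        push_cast
        ring
      calc _ ≤ C * Real.log (2 * Real.exp v) ^ 4 * (2 * Real.exp v) * z ^ (η - 1) := h5.trans h8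
        _ ≤ C * (9 * w) ^ 4 * (2 * Real.exp v) * z ^ (η - 1) := by
            refine mul_le_mul_of_nonneg_right (mul_le_mul_of_nonneg_right (mul_le_mul_of_nonneg_left h13 hC.le) ?_) h14.le
            positivity
        _ = 2 * C * 9 ^ 4 * (w ^ 4 * z ^ (η - 1)) * Real.exp v := by ring
        _ = 2 * C * 9 ^ 4 * z ^ (-κ) * Real.exp v := by rw [h15])
    have h16 : ((8 * w) ^ n)⁻¹ ≤ z ^ (-κ) := by
      rw [Real.rpow_neg hz0.le]
      refine inv_anti₀ (Real.rpow_pos_of_pos hz0 _) ?_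
      calc z ^ κ ≤ z ^ (θ * n) := Real.rpow_le_rpow_of_exponent_le hz1 (by linarith)
        _ = w ^ n := by rw [hwdef, Real.rpow_mul hz0.le, Real.rpow_natCast]
        _ ≤ (8 * w) ^ n := pow_le_pow_left₀ (by linarith) (by linarith) n
    have h17 := mul_le_mul_of_nonneg_left h16 hC₂.le
    have h18 : PL.dens (PathY d m r z (Real.exp w) a) < (2 * C * 9 ^ 4 + C₂) * z ^ (-κ) + ε := by linarith
    filter_upwards [(tendsto_dens h htinv).eventually (gt_mem_nhds h18), eventually_gt_atTop 0] with x hx hx0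
    rw [div_lt_iff₀ hx0] at hx
    exact hx.le
  refine ⟨max (2 * C * 9 ^ 4 + C₂) (Z ^ κ), lt_of_lt_of_le (by positivity : 0 < 2 * C * 9 ^ 4 + C₂) (le_max_left _ _), fun a z ε ha hz hε => ?_⟩
  have hz0 : 0 < z := by linarith
  have hZ0 : 0 < Z := by linarith
  have hzκ : 0 < z ^ (-κ) := Real.rpow_pos_of_pos hz0 _
  rcases le_or_gt Z z with hzZ | hzZ
  · filter_upwards [key a z ε hzZ hε, eventually_ge_atTop 0] with x h3 hx
    refine le_trans h3 (mul_le_mul_of_nonneg_right ?_ hx)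
    have := mul_le_mul_of_nonneg_right (le_max_left (2 * C * 9 ^ 4 + C₂) (Z ^ κ)) hzκ.le
    linarith
  · filter_upwards [eventually_ge_atTop 0] with x hx
    refine (cN_le _ hx).trans ?_
    have h3 : 1 ≤ Z ^ κ * z ^ (-κ) := by
      rw [Real.rpow_neg hz0.le, ← div_eq_mul_inv, le_div_iff₀ (Real.rpow_pos_of_pos hz0 _), one_mul]
      exact Real.rpow_le_rpow hz0.le hzZ.le hκ0.le
    have h4 := mul_le_mul_of_nonneg_right (le_max_right (2 * C * 9 ^ 4 + C₂) (Z ^ κ)) hzκ.le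
    have h5 : 1 ≤ max (2 * C * 9 ^ 4 + C₂) (Z ^ κ) * z ^ (-κ) + ε := by linarith
    nlinarith

/-- **Block 3b**, from the blocks 1 and 2 -/
theorem dens_PathS_of (h : Std d m r)
    (pc : ∀ {η : ℝ} (_ : eta d m < η) (_ : η < 1), ∃ C : ℝ, 0 < C ∧ ∀ (a : ℤ) (x z : ℝ), 2 ≤ x → 1 ≤ z →
      cN (PathS d m r z a) x ≤ C * Real.log x ^ 4 * x * z ^ (η - 1))
    (dl : ∀ n : ℕ, 1 ≤ n → ∃ C U₀ : ℝ, 0 < C ∧ 1 ≤ U₀ ∧ ∀ Y : ℝ, 1 ≤ Y → ∀ G : Set ℤ, TInv d m r G Y →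
      ∀ u₀ G₀ : ℝ, U₀ ≤ u₀ → C * Y ^ 2 ≤ Real.exp (u₀ / 2) → 0 ≤ G₀ → (∀ u, u₀ / 2 ≤ u → u ≤ u₀ → fd G (Real.exp u) ≤ G₀) →
        PL.dens G ≤ G₀ + C * (u₀ ^ n)⁻¹)
    {κ : ℝ} (hκ : 0 < κ) (hκ1 : κ < 1 - eta d m) : ∃ C : ℝ, 0 < C ∧ ∀ (a : ℤ) (z : ℝ), 1 ≤ z →
    PL.dens (PathS d m r z a) ≤ C * z ^ (-κ) := by
  obtain ⟨C, hC, hpc⟩ := pc (η := (eta d m + (1 - κ)) / 2) (by linarith) (by linarith)
  obtain ⟨C₁, hC₁, h₁⟩ := small_dens h (κ := κ) (η := (eta d m + (1 - κ)) / 2) (θ := (1 - κ - (eta d m + (1 - κ)) / 2) / 4)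
    (by linarith) (by ring) hκ hC hpc dl
  obtain ⟨C', hC', h₂⟩ := tail_of hκ (by linarith : 0 < (1 - κ - (eta d m + (1 - κ)) / 2) / 4) hC₁ h₁
  refine ⟨C', hC', fun a z hz => ?_⟩
  have hz0 : 0 < z := by linarith
  have hzκ : 0 < z ^ (-κ) := Real.rpow_pos_of_pos hz0 _
  rcases le_or_gt 1 a with ha | ha
  · refine le_of_forall_pos_le_add fun ε hε => ?_
    refine le_of_tendsto (tendsto_dens h (tinv_PathS z a)) ?_
    filter_upwards [h₂ a z ε ha hz hε, eventually_gt_atTop 0] with x hx hx0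
    rw [div_le_iff₀ hx0]
    exact hx
  · have h3 : (a : ℝ) ≤ z := by
      have h4 : (a : ℝ) < 1 := by exact_mod_cast ha
      linarith
    rw [PathS_empty h3, dens_empty h]
    positivity

end Pool.Agent.Helper5.CM
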