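import Pool.Agent.Helper5.CM.PathB
import Pool.Agent.Helper34.CM.Dens

/-!
# Project CM, block 3b: the density of the integers with a path to `a` above `z`, from the block 1
-/

set_option autoImplicit false

namespace Pool.Agent.Helper5.CM

open Filter Topology Pool.Agent.Helper68.Moeller Pool.Agent.Helper52.Tao Pool.Agent.Helper8.ND
  Pool.Agent.Helper91 Pool.Agent.Helper8 Pool.Agent.Helper28 Pool.Agent.Helper28.POSB Pool.Agent.Helper34.CM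

variable {d m : ℕ} {r : ℤ → ℤ}

/-- **Block 3b**, from the block 1 (the sets written as in `Helper51.PD`) -/
theorem dens_PathS_card (h : Std d m r)
    (card : ∀ {η : ℝ}, eta d m < η → η < 1 → ∃ C : ℝ, 0 < C ∧ ∀ (a : ℤ) (x z : ℝ), 2 ≤ x → 1 ≤ z →
      ({n : ℤ | 0 < n ∧ (n : ℝ) ≤ x ∧ n ∈ PathS d m r z a}.ncard : ℝ) ≤ C * Real.log x ^ 4 * x * z ^ (η - 1))
    {κ : ℝ} (hκ : 0 < κ) (hκ1 : κ < 1 - eta d m) : ∃ C : ℝ, 0 < C ∧ ∀ (a : ℤ) (z : ℝ), 1 ≤ z →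
    PL.dens (PathS d m r z a) ≤ C * z ^ (-κ) := by
  refine dens_PathS_of h (fun {η} h1 h2 => ?_) (fun n hn => dens_le h n hn) hκ hκ1
  obtain ⟨C, hC, h3⟩ := card h1 h2
  refine ⟨C, hC, fun a x z hx hz => ?_⟩
  have h4 := h3 a x z hx hz
  have e : {n : ℤ | n ∈ PathS d m r z a ∧ 0 < n ∧ (n : ℝ) ≤ x} = {n : ℤ | 0 < n ∧ (n : ℝ) ≤ x ∧ n ∈ PathS d m r z a} := by
    ext n
    constructor
    · rintro ⟨a1, a2, a3⟩
      exact ⟨a2, a3, a1⟩
    · rintro ⟨a1, a2, a3⟩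
      exact ⟨a3, a1, a2⟩
  unfold cN
  rw [e]
  exact h4

end Pool.Agent.Helper5.CM
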