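import Pool.Agent.Helper30.PD.MinLaw

/-!
# Project CM: the exceptional set and the tail of the law of the least positive point

`E (d, m, R)` is finite if and only if the tail `∑_{e > z} p (e)` is `o (1 / z)`.
-/

set_option autoImplicit false

namespace Pool.Agent.Helper5.CM

open Filter Topology Pool.Agent.Helper68.Moeller Pool.Agent.Helper52.Tao Pool.Agent.Helper8.ND
  Pool.Agent.Helper91 Pool.Agent.Helper8 Pool.Agent.Helper28 Pool.Agent.Helper30.PD

variable {d m : ℕ} {r : ℤ → ℤ}

/-- **The tail and the exceptional set.** -/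
theorem E_finite_iff_tail (h : POSB.Std d m r) (hs : Summable fun e : ℤ => PL.dens (MinAt d m r e)) :
    (E d m r).Finite ↔ Tendsto (fun z : ℝ => z * ∑' e : ℤ, Set.indicator {e : ℤ | z < (e : ℝ)}
      (fun e => PL.dens (MinAt d m r e)) e) atTop (𝓝 0) := by
  classical
  rw [(law_E h).2]
  constructor
  · intro hfin
    obtain ⟨B, hB⟩ := hfin.bddAbove
    refine tendsto_const_nhds.congr' ?_
    filter_upwards [eventually_ge_atTop (B : ℝ)] with z hz
    have h1 : (fun e : ℤ => Set.indicator {e : ℤ | z < (e : ℝ)} (fun e => PL.dens (MinAt d m r e)) e) = fun _ => (0 : ℝ) := by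
      funext e
      by_cases he : z < (e : ℝ)
      · rw [Set.indicator_of_mem (show e ∈ {e : ℤ | z < (e : ℝ)} from he)]
        refine le_antisymm ?_ (p_nonneg h e)
        by_contra hcon
        push Not at hcon
        have h2 : e ≤ B := hB hcon
        have h3 : (e : ℝ) ≤ B := by exact_mod_cast h2
        linarith
      · exact Set.indicator_of_notMem (show e ∉ {e : ℤ | z < (e : ℝ)} from he) _
    rw [h1, tsum_zero, mul_zero]
  · intro hlim
    by_contra hinf
    obtain ⟨c, hc, hlow⟩ := p_lower h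
    have h1 : ∀ᶠ z : ℝ in atTop, z * ∑' e : ℤ, Set.indicator {e : ℤ | z < (e : ℝ)}
        (fun e => PL.dens (MinAt d m r e)) e < c / 2 := hlim.eventually (gt_mem_nhds (by positivity))
    obtain ⟨Z, hZ⟩ := eventually_atTop.1 h1
    -- an atom beyond `Z`
    obtain ⟨e, he, heZ⟩ : ∃ e : ℤ, 0 < PL.dens (MinAt d m r e) ∧ max Z 1 + 1 ≤ (e : ℝ) := by
      by_contra hcon
      push Not at hcon
      refine hinf ((Set.finite_Icc (0 : ℤ) ⌈max Z 1 + 1⌉).subset fun e he => ?_)
      have h2 := hcon e he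
      have h3 : Low d m r e := by
        by_contra hl
        have h4 : 0 < PL.dens (MinAt d m r e) := he
        rw [p_zero h (Or.inr hl)] at h4
        exact lt_irrefl _ h4
      refine ⟨h3.1.le, ?_⟩
      have h4 : (e : ℝ) ≤ (⌈max Z 1 + 1⌉ : ℝ) := h2.le.trans (Int.le_ceil _)
      exact_mod_cast h4
    have hal : ¬ PL.Dead d m r e := by
      intro hdead
      rw [p_zero h (Or.inl hdead)] at he
      exact lt_irrefl _ he
    have hl : Low d m r e := by
      by_contra hl
      rw [p_zero h (Or.inr hl)] at he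
      exact lt_irrefl _ he
    have h2 := (hlow e hl hal).1
    have hZ1 : Z ≤ max Z 1 := le_max_left _ _
    have h11 : 1 ≤ max Z 1 := le_max_right _ _
    have he0 : (0 : ℝ) < e := by linarith
    have h3 := hZ ((e : ℝ) - 1) (by linarith)
    have h4 : PL.dens (MinAt d m r e) ≤ ∑' e' : ℤ, Set.indicator {e' : ℤ | (e : ℝ) - 1 < (e' : ℝ)}
        (fun e' => PL.dens (MinAt d m r e')) e' := by
      have h5 := (hs.indicator {e' : ℤ | (e : ℝ) - 1 < (e' : ℝ)}).le_tsum e
        fun e' _ => Set.indicator_nonneg (fun e'' _ => p_nonneg h e'') e'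
      rwa [Set.indicator_of_mem (show e ∈ {e' : ℤ | (e : ℝ) - 1 < (e' : ℝ)} from by
        show (e : ℝ) - 1 < (e : ℝ)
        linarith)] at h5
    have h5 : c / 2 ≤ ((e : ℝ) - 1) * (c / e) := by
      rw [mul_div_assoc', div_le_div_iff₀ (by norm_num) he0]
      nlinarith
    have h6 : ((e : ℝ) - 1) * (c / e) ≤ ((e : ℝ) - 1) * ∑' e' : ℤ, Set.indicator {e' : ℤ | (e : ℝ) - 1 < (e' : ℝ)}
        (fun e' => PL.dens (MinAt d m r e')) e' :=
      mul_le_mul_of_nonneg_left (h2.trans h4) (by linarith)
    linarith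

end Pool.Agent.Helper5.CM
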