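import Pool.Agent.Helper30.PD.MinLaw
import Pool.Agent.Helper91.PL.D3

/-!
# Project CM: the law of the least positive point and the statement that every orbit reaches one cycle

If the orbit of some `n ≥ 1` has another least positive point than `e₀`, and no point of the orbit of `T n` is dead, then
`p (e₀) < 1`. For `3x + 1`: every positive integer reaches `1` if and only if `p 1 = 1`.
-/

set_option autoImplicit false

namespace Pool.Agent.Helper5.CM

open Filter Topology Pool.Agent.Helper68.Moeller Pool.Agent.Helper52.Tao Pool.Agent.Helper8.ND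
  Pool.Agent.Helper91 Pool.Agent.Helper8 Pool.Agent.Helper28 Pool.Agent.Helper30.PD

variable {d m : ℕ} {r : ℤ → ℤ}

/-- If `p (e₀) = 1` then `e₀` is the only least positive point that is not dead. -/
theorem eq_of_one (h : POSB.Std d m r) {e₀ e n : ℤ} (h1 : PL.dens (MinAt d m r e₀) = 1) (hn : n ∈ MinAt d m r e)
    (hal : ¬ PL.Dead d m r e) : e = e₀ := by
  classical
  by_contra hne
  obtain ⟨c, hc, hlow⟩ := p_lower h
  have h2 := (hlow e (MinAt_low hn) hal).1
  have he0 : (0 : ℝ) < e := by exact_mod_cast hn.1.1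
  have h3 : 0 < c / (e : ℝ) := div_pos hc he0
  have h4 := sum_le_one h {e₀, e}
  rw [Finset.sum_pair (Ne.symm hne), h1] at h4
  linarith

/-- If every positive integer has the least positive point `e₀` then `p (e₀) = 1`. -/
theorem one_of_all (h : POSB.Std d m r) {e₀ : ℤ} (hall : ∀ n : ℤ, 0 < n → n ∈ MinAt d m r e₀) :
    PL.dens (MinAt d m r e₀) = 1 :=
  tendsto_nhds_unique (POSB.tendsto_dens h (tinv_MinAt e₀)) (POSB.cN_univ_tendsto hall)

/-- **`3x + 1`**: every positive integer reaches `1` if and only if `p 1 = 1`. -/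
theorem collatz_iff : (∀ n : ℤ, 1 ≤ n → ∃ t : ℕ, (T 2 3 (fun _ => -1))^[t] n = 1) ↔
    PL.dens (MinAt 2 3 (fun _ => -1) 1) = 1 := by
  have h := POSB.std_three
  constructor
  · intro hall
    refine one_of_all h fun n hn => ⟨⟨one_pos, hall n (by omega)⟩, ?_⟩
    rintro y ⟨hy, -⟩
    omega
  · intro h1 n hn
    have hT : ∀ y : ℤ, 0 < y → 0 < T 2 3 (fun _ => -1) y := by
      intro y hy
      by_cases h2 : (2 : ℤ) ∣ y
      · have h3 := d_mul_T_of_dvd (d := 2) (m := 3) (r := fun _ => -1) h2
        push_cast at h3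
        omega
      · have h3 := d_mul_T_of_not_dvd (d := 2) (m := 3) (r := fun _ => -1) h.hr (by norm_num) h2
        push_cast at h3
        omega
    have h3 : ∀ y : ℤ, ¬ (3 : ℤ) ∣ y → ¬ (3 : ℤ) ∣ T 2 3 (fun _ => -1) y := by
      intro y hy
      by_cases h2 : (2 : ℤ) ∣ y
      · have h3 := d_mul_T_of_dvd (d := 2) (m := 3) (r := fun _ => -1) h2
        push_cast at h3
        omega
      · have h3 := d_mul_T_of_not_dvd (d := 2) (m := 3) (r := fun _ => -1) h.hr (by norm_num) h2
        push_cast at h3
        omega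
    have hit : ∀ y : ℤ, 0 < y → ¬ (3 : ℤ) ∣ y → ∃ t : ℕ, (T 2 3 (fun _ => -1))^[t] y = 1 := by
      intro y hy hy3
      obtain ⟨e, he⟩ := exists_min (d := 2) (m := 3) (r := fun _ => -1) hy
      have hall3 : ∀ t : ℕ, ¬ (3 : ℤ) ∣ (T 2 3 (fun _ => -1))^[t] y := by
        intro t
        induction t with
        | zero => exact hy3
        | succ t ih =>
          rw [Function.iterate_succ_apply']
          exact h3 _ ih
      obtain ⟨t, ht⟩ := he.1.2
      have he3 : ¬ (3 : ℤ) ∣ e := ht ▸ hall3 t
      have he1 : e = 1 := eq_of_one h h1 he fun hdead => he3 ((PL.dead_three e).1 hdead)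
      exact ⟨t, by rw [ht, he1]⟩
    -- an iterate of `n` is not a multiple of `3`
    have hstep : ∀ k : ℕ, ∀ y : ℤ, 0 < y → y < 2 ^ k → ∃ s : ℕ, 0 < (T 2 3 (fun _ => -1))^[s] y ∧
        ¬ (3 : ℤ) ∣ (T 2 3 (fun _ => -1))^[s] y := by
      intro k
      induction k with
      | zero =>
        intro y hy hy1
        rw [pow_zero] at hy1
        omega
      | succ k ih =>
        intro y hy hyk
        by_cases h2 : (2 : ℤ) ∣ y
        · have h4 := d_mul_T_of_dvd (d := 2) (m := 3) (r := fun _ => -1) h2
          push_cast at h4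
          rw [pow_succ] at hyk
          obtain ⟨s, hs⟩ := ih (T 2 3 (fun _ => -1) y) (by omega) (by omega)
          exact ⟨s + 1, by rw [Function.iterate_succ_apply]; exact hs⟩
        · have h4 := d_mul_T_of_not_dvd (d := 2) (m := 3) (r := fun _ => -1) h.hr (by norm_num) h2
          push_cast at h4
          refine ⟨1, ?_, ?_⟩
          · rw [Function.iterate_one]
            exact hT y hy
          · rw [Function.iterate_one]
            omega
    obtain ⟨s, hs1, hs2⟩ := hstep n.toNat n (by omega) (by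
      have h5 : n.toNat < 2 ^ n.toNat := Nat.lt_two_pow_self
      have h6 : ((n.toNat : ℕ) : ℤ) < ((2 ^ n.toNat : ℕ) : ℤ) := by exact_mod_cast h5
      push_cast at h6
      omega)
    obtain ⟨t, ht⟩ := hit _ hs1 hs2
    exact ⟨t + s, by rw [Function.iterate_add_apply]; exact ht⟩

end Pool.Agent.Helper5.CM
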